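import Pool.Agent.Helper41.LD.Defs

/-!
# Project LD, block GA: integrals of a product of two Haar functions
-/

set_option autoImplicit false
set_option linter.unusedVariables false

namespace Pool.Agent.Helper5.LD

open Set MeasureTheory
open Pool.Agent.Helper41.LD

theorem ind_meas (k i : ℕ) : Measurable (ind k i) := by
  have h : Measurable fun t : ℝ => ⌊(2 : ℝ) ^ k * Int.fract t⌋ :=
    Int.measurable_floor.comp (measurable_fract.const_mul _)
  unfold ind
  exact Measurable.ite (h (measurableSet_singleton _)) measurable_const measurable_const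

theorem haar_meas (k i : ℕ) : Measurable (haar k i) := (ind_meas _ _).sub (ind_meas _ _)

theorem ind_nonneg (k i : ℕ) (t : ℝ) : 0 ≤ ind k i t := by
  unfold ind; split_ifs <;> norm_num

theorem ind_le_one (k i : ℕ) (t : ℝ) : ind k i t ≤ 1 := by
  unfold ind; split_ifs <;> norm_num

theorem haar_abs (k i : ℕ) (t : ℝ) : |haar k i t| ≤ 1 := by
  have h1 := ind_nonneg (k + 1) (2 * i) t
  have h2 := ind_nonneg (k + 1) (2 * i + 1) t
  have h3 := ind_le_one (k + 1) (2 * i) t
  have h4 := ind_le_one (k + 1) (2 * i + 1) t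
  unfold haar
  rw [abs_le]
  constructor <;> linarith

theorem ind_per (k i : ℕ) : Function.Periodic (ind k i) 1 := by
  intro t
  unfold ind
  rw [Int.fract_add_one]

theorem haar_per (k i : ℕ) : Function.Periodic (haar k i) 1 := by
  intro t
  unfold haar
  rw [ind_per, ind_per]

theorem ii_bdd {f : ℝ → ℝ} (hf : Measurable f) {C : ℝ} (hC : ∀ x, |f x| ≤ C) (a b : ℝ) :
    IntervalIntegrable f volume a b := by
  refine (intervalIntegrable_const (c := C)).mono_fun hf.aestronglyMeasurable (ae_of_all _ fun x => ?_)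
  show ‖f x‖ ≤ ‖C‖
  rw [Real.norm_eq_abs, Real.norm_eq_abs]
  exact (hC x).trans (le_abs_self C)

theorem int_le_len {f : ℝ → ℝ} (hC : ∀ x, |f x| ≤ 1) {a b : ℝ} (hab : a ≤ b) :
    |∫ x in a..b, f x| ≤ b - a := by
  have h := intervalIntegral.norm_integral_le_of_norm_le_const (a := a) (b := b) (f := f) (C := 1)
    fun x _ => by rw [Real.norm_eq_abs]; exact hC x
  rw [Real.norm_eq_abs, one_mul, abs_of_nonneg (by linarith : 0 ≤ b - a)] at h
  exact h

theorem ind_zero {k i : ℕ} (h : 2 ^ k ≤ i) (t : ℝ) : ind k i t = 0 := by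
  unfold ind
  rw [if_neg]
  intro h1
  rw [Int.floor_eq_iff] at h1
  have h2 := Int.fract_lt_one t
  have h3 : ((2 : ℝ) ^ k) ≤ i := by exact_mod_cast h
  have h4 : (0 : ℝ) < 2 ^ k := by positivity
  have h5 := h1.1
  push_cast at h5
  nlinarith

/-- the indicator on `[z, z + 1)` -/
theorem ind_unit (k i : ℕ) {z : ℤ} {t : ℝ} (h0 : (z : ℝ) ≤ t) (h1 : t < z + 1) :
    ind k i t = (Ico ((z : ℝ) + i / 2 ^ k) (z + (i + 1) / 2 ^ k)).indicator (fun _ => (1 : ℝ)) t := by
  have hf : Int.fract t = t - z := by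
    unfold Int.fract
    rw [Int.floor_eq_iff.2 ⟨h0, h1⟩]
  have h4 : (0 : ℝ) < 2 ^ k := by positivity
  have hiff : ⌊(2 : ℝ) ^ k * (t - z)⌋ = (i : ℤ) ↔ t ∈ Ico ((z : ℝ) + i / 2 ^ k) (z + (i + 1) / 2 ^ k) := by
    rw [Int.floor_eq_iff, mem_Ico]
    push_cast
    have e1 : (i : ℝ) ≤ 2 ^ k * (t - z) ↔ (z : ℝ) + i / 2 ^ k ≤ t := by
      rw [← div_le_iff₀' h4]
      constructor <;> intro h <;> linarith
    have e2 : 2 ^ k * (t - z) < (i : ℝ) + 1 ↔ t < z + (i + 1) / 2 ^ k := by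
      rw [← lt_div_iff₀' h4]
      constructor <;> intro h <;> linarith
    rw [e1, e2]
  unfold ind
  rw [hf]
  by_cases h : t ∈ Ico ((z : ℝ) + i / 2 ^ k) (z + (i + 1) / 2 ^ k)
  · rw [indicator_of_mem h, if_pos (hiff.2 h)]
  · rw [indicator_of_notMem h, if_neg fun h' => h (hiff.1 h')]

/-- integral over a part of an interval -/
theorem int_part {g : ℝ → ℝ} {η : ℝ} (hη : 0 ≤ η) (hg : ∀ s t, s ≤ t → |∫ x in s..t, g x| ≤ η)
    (u v : ℝ) {a b : ℝ} (hab : a ≤ b) : |∫ x in a..b, (Ico u v).indicator g x| ≤ η := by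
  rw [intervalIntegral.integral_of_le hab, setIntegral_indicator measurableSet_Ico]
  have h1 : (Ioc a b ∩ Ico u v : Set ℝ) =ᵐ[volume] Ioc (max a u) (min b v) := by
    have h2 : (Ico u v : Set ℝ) =ᵐ[volume] Ioc u v := Ico_ae_eq_Ioc
    refine (Filter.EventuallyEq.inter (Filter.EventuallyEq.refl _ _) h2).trans ?_
    rw [Ioc_inter_Ioc]
  rw [setIntegral_congr_set h1]
  rcases le_total (max a u) (min b v) with h | h
  · rw [← intervalIntegral.integral_of_le h]
    exact hg _ _ h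
  · rw [Ioc_eq_empty (not_lt.2 h)]
    simpa using hη

theorem int_ind (k i : ℕ) : ∫ t in (0 : ℝ)..1, ind k i t = if i < 2 ^ k then (1 / 2) ^ k else 0 := by
  by_cases hi : i < 2 ^ k
  · rw [if_pos hi]
    have h4 : (0 : ℝ) < 2 ^ k := by positivity
    have hi1 : ((i : ℝ) + 1) ≤ 2 ^ k := by exact_mod_cast hi
    have e1 : ∫ t in (0 : ℝ)..1, ind k i t = ∫ t in (0 : ℝ)..1, (Ico ((i : ℝ) / 2 ^ k) ((i + 1) / 2 ^ k)).indicator (fun _ => (1 : ℝ)) t := by
      rw [intervalIntegral.integral_of_le zero_le_one, intervalIntegral.integral_of_le zero_le_one,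
        ← integral_Ico_eq_integral_Ioc, ← integral_Ico_eq_integral_Ioc]
      refine setIntegral_congr_fun measurableSet_Ico fun t ht => ?_
      have := ind_unit k i (z := 0) (t := t) (by simpa using ht.1) (by simpa using ht.2)
      simpa using this
    rw [e1, intervalIntegral.integral_of_le zero_le_one, setIntegral_indicator measurableSet_Ico]
    have h1 : (Ioc (0 : ℝ) 1 ∩ Ico ((i : ℝ) / 2 ^ k) ((i + 1) / 2 ^ k) : Set ℝ) =ᵐ[volume] Ioc ((i : ℝ) / 2 ^ k) ((i + 1) / 2 ^ k) := by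
      have h2 : (Ico ((i : ℝ) / 2 ^ k) ((i + 1) / 2 ^ k) : Set ℝ) =ᵐ[volume] Ioc ((i : ℝ) / 2 ^ k) ((i + 1) / 2 ^ k) := Ico_ae_eq_Ioc
      refine (Filter.EventuallyEq.inter (Filter.EventuallyEq.refl _ _) h2).trans ?_
      rw [Ioc_inter_Ioc, max_eq_right (by positivity), min_eq_right ((div_le_one h4).2 hi1)]
    have hle : (i : ℝ) / 2 ^ k ≤ (i + 1) / 2 ^ k := by
      apply div_le_div_of_nonneg_right _ h4.le
      linarith
    rw [setIntegral_congr_set h1, ← intervalIntegral.integral_of_le hle]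
    rw [intervalIntegral.integral_const, smul_eq_mul, mul_one, ← sub_div, one_div, inv_pow]
    rw [show (i : ℝ) + 1 - i = 1 by ring, one_div]
  · rw [if_neg hi]
    have : ∀ t, ind k i t = 0 := fun t => ind_zero (not_lt.1 hi) t
    simp [this]

theorem ind_int (k i : ℕ) (a b : ℝ) : IntervalIntegrable (ind k i) volume a b :=
  ii_bdd (ind_meas k i) (C := 1) (fun x => by rw [abs_of_nonneg (ind_nonneg _ _ _)]; exact ind_le_one _ _ _) a b

theorem haar_int (k i : ℕ) (a b : ℝ) : IntervalIntegrable (haar k i) volume a b :=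
  ii_bdd (haar_meas k i) (haar_abs k i) a b

theorem int_haar (k i : ℕ) : ∫ t in (0 : ℝ)..1, haar k i t = 0 := by
  unfold haar
  rw [intervalIntegral.integral_sub (ind_int _ _ _ _) (ind_int _ _ _ _), int_ind, int_ind]
  have : 2 * i < 2 ^ (k + 1) ↔ 2 * i + 1 < 2 ^ (k + 1) := by
    rw [pow_succ]
    constructor <;> intro h <;> omega
  by_cases h : 2 * i < 2 ^ (k + 1)
  · rw [if_pos h, if_pos (this.1 h), sub_self]
  · rw [if_neg h, if_neg fun h' => h (this.2 h'), sub_self]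

/-- a periodic function over a long interval -/
theorem per_long {p : ℝ → ℝ} (hm : Measurable p) (h1 : ∀ x, |p x| ≤ 1) (hp : Function.Periodic p 1) {u v : ℝ} (huv : u ≤ v) :
    |(∫ y in u..v, p y) - (v - u) * ∫ y in (0 : ℝ)..1, p y| ≤ 2 := by
  set Q : ℤ := ⌊v - u⌋ with hQ
  have hQ0 := Int.floor_le (v - u)
  have hQ1 := Int.lt_floor_add_one (v - u)
  have hint : ∀ a b, IntervalIntegrable p volume a b := fun a b => ii_bdd hm h1 a b
  have e1 := hp.intervalIntegral_add_zsmul_eq Q u hint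
  rw [hp.intervalIntegral_add_eq u 0, zero_add] at e1
  simp only [zsmul_eq_mul, mul_one] at e1
  have e2 : ∫ y in u..v, p y = (∫ y in u..u + Q, p y) + ∫ y in u + Q..v, p y :=
    (intervalIntegral.integral_add_adjacent_intervals (hint _ _) (hint _ _)).symm
  have h2 : |∫ y in u + Q..v, p y| ≤ v - (u + Q) := int_le_len h1 (by linarith)
  have h3 : |∫ y in (0 : ℝ)..1, p y| ≤ 1 - 0 := int_le_len h1 zero_le_one
  rw [e2, e1]
  have e3 : (Q : ℝ) * (∫ y in (0 : ℝ)..1, p y) + (∫ y in u + Q..v, p y) - (v - u) * (∫ y in (0 : ℝ)..1, p y) =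
      (∫ y in u + Q..v, p y) - (v - u - Q) * ∫ y in (0 : ℝ)..1, p y := by ring
  rw [e3]
  have h4 : |(v - u - Q) * ∫ y in (0 : ℝ)..1, p y| ≤ 1 := by
    rw [abs_mul, abs_of_nonneg (by linarith : 0 ≤ v - u - Q)]
    have : 0 ≤ |∫ y in (0 : ℝ)..1, p y| := abs_nonneg _
    nlinarith
  have h5 := abs_sub (∫ y in u + Q..v, p y) ((v - u - Q) * ∫ y in (0 : ℝ)..1, p y)
  linarith

/-- the primitive of a Haar function -/
theorem prim_le (k i : ℕ) {u v : ℝ} (huv : u ≤ v) : |∫ y in u..v, haar k i y| ≤ 1 := by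
  have hp := haar_per k i
  set Q : ℤ := ⌊v - u⌋ with hQ
  have hQ0 := Int.floor_le (v - u)
  have hQ1 := Int.lt_floor_add_one (v - u)
  have e1 := hp.intervalIntegral_add_zsmul_eq Q u (haar_int k i)
  rw [hp.intervalIntegral_add_eq u 0, zero_add, int_haar] at e1
  simp only [zsmul_eq_mul, mul_one, mul_zero] at e1
  have e2 : ∫ y in u..v, haar k i y = (∫ y in u..u + Q, haar k i y) + ∫ y in u + Q..v, haar k i y :=
    (intervalIntegral.integral_add_adjacent_intervals (haar_int _ _ _ _) (haar_int _ _ _ _)).symm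
  have h2 : |∫ y in u + Q..v, haar k i y| ≤ v - (u + Q) := int_le_len (haar_abs k i) (by linarith)
  rw [e2, e1, zero_add]
  linarith

theorem prim_comp_le {α : ℝ} (hα : 0 < α) (k i : ℕ) (c : ℝ) {s t : ℝ} (hst : s ≤ t) :
    |∫ x in s..t, haar k i (α * x + c)| ≤ 1 / α := by
  rw [intervalIntegral.integral_comp_mul_add (fun y => haar k i y) hα.ne' c, smul_eq_mul, abs_mul, abs_of_pos (inv_pos.2 hα),
    one_div]
  refine mul_le_of_le_one_right (inv_pos.2 hα).le (prim_le k i ?_)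
  nlinarith

/-! ## pair_piece -/

theorem unit_piece {g : ℝ → ℝ} {η : ℝ} (hη : 0 ≤ η) (hg : ∀ s t, s ≤ t → |∫ x in s..t, g x| ≤ η)
    {β : ℝ} (hβ : 0 < β) (k j : ℕ) (d : ℝ) {s t : ℝ} (hst : s ≤ t) (z : ℤ) (h0 : (z : ℝ) ≤ β * s + d) (h1 : β * t + d ≤ z + 1) :
    |∫ x in s..t, ind k j (β * x + d) * g x| ≤ η := by
  have e : ∫ x in s..t, ind k j (β * x + d) * g x = ∫ x in s..t,
      (Ico (((z : ℝ) + j / 2 ^ k - d) / β) ((z + (j + 1) / 2 ^ k - d) / β)).indicator g x := by
    rw [intervalIntegral.integral_of_le hst, intervalIntegral.integral_of_le hst,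
      ← integral_Ico_eq_integral_Ioc, ← integral_Ico_eq_integral_Ioc]
    refine setIntegral_congr_fun measurableSet_Ico fun x hx => ?_
    have h2 : (z : ℝ) ≤ β * x + d := by nlinarith [hx.1]
    have h3 : β * x + d < z + 1 := by nlinarith [hx.2]
    have h4 : β * x + d ∈ Ico ((z : ℝ) + j / 2 ^ k) (z + (j + 1) / 2 ^ k) ↔
        x ∈ Ico (((z : ℝ) + j / 2 ^ k - d) / β) ((z + (j + 1) / 2 ^ k - d) / β) := by
      rw [mem_Ico, mem_Ico, div_le_iff₀' hβ, lt_div_iff₀' hβ]
      constructor <;> rintro ⟨a1, a2⟩ <;> constructor <;> linarith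
    show ind k j (β * x + d) * g x = _
    rw [ind_unit k j h2 h3]
    by_cases h5 : β * x + d ∈ Ico ((z : ℝ) + j / 2 ^ k) (z + (j + 1) / 2 ^ k)
    · rw [indicator_of_mem h5, indicator_of_mem (h4.1 h5), one_mul]
    · rw [indicator_of_notMem h5, indicator_of_notMem fun h' => h5 (h4.2 h'), zero_mul]
  rw [e]
  exact int_part hη hg _ _ hst

theorem pieces {g : ℝ → ℝ} (hgm : Measurable g) (hg1 : ∀ x, |g x| ≤ 1) {η : ℝ} (hη : 0 ≤ η)
    (hg : ∀ s t, s ≤ t → |∫ x in s..t, g x| ≤ η)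
    {β : ℝ} (hβ : 0 < β) (k j : ℕ) (d : ℝ) : ∀ (n : ℕ) (s t : ℝ), s ≤ t → ∀ z : ℤ, (z : ℝ) ≤ β * s + d → β * t + d ≤ z + n + 1 →
    |∫ x in s..t, ind k j (β * x + d) * g x| ≤ (n + 1) * η := by
  have hm : Measurable fun x => ind k j (β * x + d) * g x :=
    ((ind_meas k j).comp ((measurable_const_mul β).add_const d)).mul hgm
  have hb : ∀ x, |ind k j (β * x + d) * g x| ≤ 1 := fun x => by
    rw [abs_mul, abs_of_nonneg (ind_nonneg _ _ _)]
    exact mul_le_one₀ (ind_le_one _ _ _) (abs_nonneg _) (hg1 x)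
  intro n
  induction n with
  | zero =>
    intro s t hst z h0 h1
    rw [Nat.cast_zero, zero_add, one_mul]
    exact unit_piece hη hg hβ k j d hst z h0 (by simpa using h1)
  | succ n ih =>
    intro s t hst z h0 h1
    push_cast at h1 ⊢
    rcases le_total (β * t + d) (z + n + 1) with h | h
    · have := ih s t hst z h0 h
      linarith
    · set w : ℝ := (z + n + 1 - d) / β with hw
      have hwe : β * w + d = z + n + 1 := by
        rw [hw]; field_simp; ring
      have hwt : w ≤ t := by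
        rw [hw, div_le_iff₀' hβ]; linarith
      rcases le_total w s with h2 | h2
      · have h3 : (z : ℝ) + n + 1 ≤ β * s + d := by nlinarith
        have h4 := unit_piece hη hg hβ k j d hst (z + n + 1) (by push_cast; exact h3) (by push_cast; linarith)
        have : (0 : ℝ) ≤ n := Nat.cast_nonneg n
        nlinarith
      · have h3 := ih s w h2 z h0 hwe.le
        have h4 := unit_piece hη hg hβ k j d hwt (z + n + 1) (by push_cast; exact hwe.ge) (by push_cast; linarith)
        rw [← intervalIntegral.integral_add_adjacent_intervals (ii_bdd hm hb s w) (ii_bdd hm hb w t)]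
        have h5 := abs_add_le (∫ x in s..w, ind k j (β * x + d) * g x) (∫ x in w..t, ind k j (β * x + d) * g x)
        linarith

/-- product with a faster one: the slower one has two pieces per period -/
theorem pair_piece {α β : ℝ} (hα : 0 < α) (hβ : 0 < β) (k i k' i' : ℕ) (c d a b : ℝ) (hab : a ≤ b) :
    |∫ x in a..b, haar k i (β * x + d) * haar k' i' (α * x + c)| ≤ 2 * (β * (b - a) + 2) / α := by
  have hgm : Measurable fun x => haar k' i' (α * x + c) := (haar_meas k' i').comp ((measurable_const_mul α).add_const c)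
  have hg1 : ∀ x, |haar k' i' (α * x + c)| ≤ 1 := fun x => haar_abs _ _ _
  have hη : (0 : ℝ) ≤ 1 / α := by positivity
  have hg : ∀ s t, s ≤ t → |∫ x in s..t, haar k' i' (α * x + c)| ≤ 1 / α := fun s t hst => prim_comp_le hα k' i' c hst
  have key : ∀ j : ℕ, |∫ x in a..b, ind (k + 1) j (β * x + d) * haar k' i' (α * x + c)| ≤ (β * (b - a) + 2) * (1 / α) := by
    intro j
    have hba : 0 ≤ β * (b - a) := mul_nonneg hβ.le (by linarith)
    have h1 := pieces hgm hg1 hη hg hβ (k + 1) j d (⌊β * (b - a)⌋₊ + 1) a b hab ⌊β * a + d⌋ (Int.floor_le _) (by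
      have h2 := Int.lt_floor_add_one (β * a + d)
      have h3 := Nat.lt_floor_add_one (β * (b - a))
      push_cast
      nlinarith)
    refine h1.trans (mul_le_mul_of_nonneg_right ?_ hη)
    have h3 := Nat.floor_le hba
    push_cast
    linarith
  have hm : ∀ j : ℕ, Measurable fun x => ind (k + 1) j (β * x + d) * haar k' i' (α * x + c) := fun j =>
    ((ind_meas (k + 1) j).comp ((measurable_const_mul β).add_const d)).mul hgm
  have hb : ∀ j x, |ind (k + 1) j (β * x + d) * haar k' i' (α * x + c)| ≤ 1 := fun j x => by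
    rw [abs_mul, abs_of_nonneg (ind_nonneg _ _ _)]
    exact mul_le_one₀ (ind_le_one _ _ _) (abs_nonneg _) (hg1 x)
  have e : ∫ x in a..b, haar k i (β * x + d) * haar k' i' (α * x + c) =
      (∫ x in a..b, ind (k + 1) (2 * i) (β * x + d) * haar k' i' (α * x + c)) -
        ∫ x in a..b, ind (k + 1) (2 * i + 1) (β * x + d) * haar k' i' (α * x + c) := by
    rw [← intervalIntegral.integral_sub (ii_bdd (hm _) (hb _) a b) (ii_bdd (hm _) (hb _) a b)]
    refine intervalIntegral.integral_congr fun x _ => ?_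
    show haar k i (β * x + d) * haar k' i' (α * x + c) = _
    unfold haar
    ring
  rw [e]
  have h1 := abs_sub (∫ x in a..b, ind (k + 1) (2 * i) (β * x + d) * haar k' i' (α * x + c))
    (∫ x in a..b, ind (k + 1) (2 * i + 1) (β * x + d) * haar k' i' (α * x + c))
  have h2 := key (2 * i)
  have h3 := key (2 * i + 1)
  have e2 : 2 * (β * (b - a) + 2) / α = (β * (b - a) + 2) * (1 / α) + (β * (b - a) + 2) * (1 / α) := by
    field_simp; ring
  rw [e2]
  linarith

/-! ## pair_same -/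

theorem nest {k k' : ℕ} (h : k ≤ k') (j j' : ℕ) (t : ℝ) :
    ind k j t * ind k' j' t = if j' / 2 ^ (k' - k) = j then ind k' j' t else 0 := by
  have h4 : (0 : ℝ) < 2 ^ (k' - k) := by positivity
  have e : ⌊(2 : ℝ) ^ k * Int.fract t⌋ = ⌊(2 : ℝ) ^ k' * Int.fract t⌋ / ((2 ^ (k' - k) : ℕ) : ℤ) := by
    rw [← Int.floor_div_natCast]
    congr 1
    push_cast
    rw [eq_div_iff h4.ne', ← Nat.sub_add_cancel h, pow_add]
    rw [Nat.sub_add_cancel h]
    ring
  unfold ind
  by_cases h' : ⌊(2 : ℝ) ^ k' * Int.fract t⌋ = (j' : ℤ)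
  · rw [if_pos h', e, h', mul_one]
    have e2 : ((j' : ℤ) / ((2 ^ (k' - k) : ℕ) : ℤ) = (j : ℤ)) ↔ j' / 2 ^ (k' - k) = j := by
      rw [← Int.natCast_div, Nat.cast_inj]
    by_cases h2 : j' / 2 ^ (k' - k) = j
    · rw [if_pos h2, if_pos (e2.2 h2)]
    · rw [if_neg h2, if_neg fun h3 => h2 (e2.1 h3)]
  · rw [if_neg h', mul_zero, ite_self]

theorem int_pair_same (k i i' : ℕ) (hi : i < 2 ^ k) :
    ∫ y in (0 : ℝ)..1, haar k i y * haar k i' y = if i = i' then (1 / 2) ^ k else 0 := by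
  have e : ∀ y, haar k i y * haar k i' y = if i = i' then ind (k + 1) (2 * i) y + ind (k + 1) (2 * i + 1) y else 0 := by
    intro y
    have n1 := nest (le_refl (k + 1)) (2 * i) (2 * i') y
    have n2 := nest (le_refl (k + 1)) (2 * i) (2 * i' + 1) y
    have n3 := nest (le_refl (k + 1)) (2 * i + 1) (2 * i') y
    have n4 := nest (le_refl (k + 1)) (2 * i + 1) (2 * i' + 1) y
    simp only [Nat.sub_self, pow_zero, Nat.div_one] at n1 n2 n3 n4
    rw [if_neg (by omega)] at n2 n3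
    unfold haar
    by_cases h : i = i'
    · subst h
      rw [if_pos rfl] at n1 n4 ⊢
      linear_combination n1 - n2 - n3 + n4
    · rw [if_neg (by omega)] at n1 n4
      rw [if_neg h]
      linear_combination n1 - n2 - n3 + n4
  simp only [e]
  by_cases h : i = i'
  · simp only [if_pos h]
    rw [intervalIntegral.integral_add (ind_int _ _ _ _) (ind_int _ _ _ _), int_ind, int_ind,
      if_pos (by rw [pow_succ]; omega), if_pos (by rw [pow_succ]; omega), pow_succ]
    ring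
  · simp only [if_neg h]
    simp

theorem int_pair_diff {k k' : ℕ} (hkk : k < k') (i i' : ℕ) :
    ∫ y in (0 : ℝ)..1, haar k i y * haar k' i' y = 0 := by
  have hm : k' + 1 - (k + 1) = (k' - k - 1) + 1 := by omega
  have hq : (2 * i') / 2 ^ (k' + 1 - (k + 1)) = (2 * i' + 1) / 2 ^ (k' + 1 - (k + 1)) := by
    rw [hm, pow_succ', ← Nat.div_div_eq_div_mul, ← Nat.div_div_eq_div_mul]
    congr 1
    omega
  have e : ∀ y, haar k i y * haar k' i' y = ((if (2 * i') / 2 ^ (k' + 1 - (k + 1)) = 2 * i then (1 : ℝ) else 0) -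
      (if (2 * i') / 2 ^ (k' + 1 - (k + 1)) = 2 * i + 1 then (1 : ℝ) else 0)) * haar k' i' y := by
    intro y
    have hle : k + 1 ≤ k' + 1 := by omega
    have n1 := nest hle (2 * i) (2 * i') y
    have n2 := nest hle (2 * i) (2 * i' + 1) y
    have n3 := nest hle (2 * i + 1) (2 * i') y
    have n4 := nest hle (2 * i + 1) (2 * i' + 1) y
    rw [← hq] at n2 n4
    unfold haar
    split_ifs at n1 n2 n3 n4 ⊢ <;> linear_combination n1 - n2 - n3 + n4
  simp only [e]
  rw [intervalIntegral.integral_const_mul, int_haar, mul_zero]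

/-- orthogonality -/
theorem pair_same {β : ℝ} (hβ : 0 < β) {k i k' i' : ℕ} (hi : i < 2 ^ k) (hi' : i' < 2 ^ k') (d a b : ℝ) (hab : a ≤ b) :
    |(∫ x in a..b, haar k i (β * x + d) * haar k' i' (β * x + d)) -
      (b - a) * (if k = k' ∧ i = i' then (1 / 2) ^ k else 0)| ≤ 2 / β := by
  have hm : ∫ y in (0 : ℝ)..1, haar k i y * haar k' i' y = if k = k' ∧ i = i' then (1 / 2) ^ k else 0 := by
    rcases lt_trichotomy k k' with h | h | h
    · rw [int_pair_diff h, if_neg fun h' => h.ne h'.1]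
    · subst h
      rw [int_pair_same k i i' hi]
      by_cases h : i = i'
      · rw [if_pos h, if_pos ⟨rfl, h⟩]
      · rw [if_neg h, if_neg fun h' => h h'.2]
    · rw [if_neg fun h' => h.ne' h'.1]
      refine Eq.trans ?_ (int_pair_diff h i' i)
      exact intervalIntegral.integral_congr fun y _ => mul_comm _ _
  rw [← hm, intervalIntegral.integral_comp_mul_add (fun y => haar k i y * haar k' i' y) hβ.ne' d, smul_eq_mul]
  have h1 := per_long (p := fun y => haar k i y * haar k' i' y) ((haar_meas k i).mul (haar_meas k' i')) (fun x => by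
    rw [abs_mul]
    exact mul_le_one₀ (haar_abs _ _ _) (abs_nonneg _) (haar_abs _ _ _)) (fun x => by
    show haar k i (x + 1) * haar k' i' (x + 1) = haar k i x * haar k' i' x
    rw [haar_per, haar_per]) (u := β * a + d) (v := β * b + d) (by nlinarith)
  have e : β⁻¹ * (∫ y in β * a + d..β * b + d, haar k i y * haar k' i' y) - (b - a) * ∫ y in (0 : ℝ)..1, haar k i y * haar k' i' y =
      β⁻¹ * ((∫ y in β * a + d..β * b + d, haar k i y * haar k' i' y) -
        (β * b + d - (β * a + d)) * ∫ y in (0 : ℝ)..1, haar k i y * haar k' i' y) := by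
    field_simp
    ring
  rw [e, abs_mul, abs_of_pos (inv_pos.2 hβ), div_eq_inv_mul]
  exact mul_le_mul_of_nonneg_left h1 (inv_pos.2 hβ).le

/-! ## pair_equi -/

theorem ind_fract {k i : ℕ} (t : ℝ) : ind k i t =
    if (i : ℝ) / 2 ^ k ≤ Int.fract t ∧ Int.fract t < (i + 1) / 2 ^ k then 1 else 0 := by
  have h4 : (0 : ℝ) < 2 ^ k := by positivity
  unfold ind
  congr 1
  rw [Int.floor_eq_iff, div_le_iff₀' h4, lt_div_iff₀' h4]
  push_cast
  rfl

theorem sum_ind {θ : ℝ} {r Q₀ : ℕ} {ε : ℝ} (hE : Equi θ r Q₀ ε) {d₀ : ℕ} (h1 : 1 ≤ d₀) (hd : d₀ ≤ r) {k i : ℕ} (hi : i < 2 ^ k)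
    {Q : ℕ} (hQ : Q₀ ≤ Q) (x : ℝ) : |∑ m ∈ Finset.range Q, ind k i (m * θ ^ d₀ + x) - Q * (1 / 2) ^ k| ≤ ε * Q := by
  have h4 : (0 : ℝ) < 2 ^ k := by positivity
  have hi1 : ((i : ℝ) + 1) ≤ 2 ^ k := by exact_mod_cast hi
  have h := hE d₀ h1 hd Q hQ x (i / 2 ^ k) ((i + 1) / 2 ^ k) (by positivity)
    (div_le_div_of_nonneg_right (by linarith) h4.le) ((div_le_one h4).2 hi1)
  have e1 : ∑ m ∈ Finset.range Q, ind k i (m * θ ^ d₀ + x) = (((Finset.range Q).filter fun m : ℕ =>
      (i : ℝ) / 2 ^ k ≤ Int.fract (m * θ ^ d₀ + x) ∧ Int.fract (m * θ ^ d₀ + x) < (i + 1) / 2 ^ k).card : ℝ) := by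
    rw [Finset.card_filter, Nat.cast_sum]
    refine Finset.sum_congr rfl fun m _ => ?_
    rw [ind_fract]
    split_ifs <;> simp
  have e2 : ((i : ℝ) + 1) / 2 ^ k - i / 2 ^ k = (1 / 2) ^ k := by
    rw [← sub_div, show (i : ℝ) + 1 - i = 1 by ring, one_div, one_div, inv_pow]
  rw [e1, ← e2]
  exact h

theorem sum_haar {θ : ℝ} {r Q₀ : ℕ} {ε : ℝ} (hE : Equi θ r Q₀ ε) (hε : 0 ≤ ε) {d₀ : ℕ} (h1 : 1 ≤ d₀) (hd : d₀ ≤ r) (k i : ℕ)
    {Q : ℕ} (hQ : Q₀ ≤ Q) (x : ℝ) : |∑ m ∈ Finset.range Q, haar k i (m * θ ^ d₀ + x)| ≤ 2 * ε * Q := by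
  by_cases hi : i < 2 ^ k
  · have a1 := sum_ind hE h1 hd (k := k + 1) (i := 2 * i) (by rw [pow_succ]; omega) hQ x
    have a2 := sum_ind hE h1 hd (k := k + 1) (i := 2 * i + 1) (by rw [pow_succ]; omega) hQ x
    have e : ∑ m ∈ Finset.range Q, haar k i (m * θ ^ d₀ + x) =
        (∑ m ∈ Finset.range Q, ind (k + 1) (2 * i) (m * θ ^ d₀ + x) - Q * (1 / 2) ^ (k + 1)) -
        (∑ m ∈ Finset.range Q, ind (k + 1) (2 * i + 1) (m * θ ^ d₀ + x) - Q * (1 / 2) ^ (k + 1)) := by
      unfold haar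
      rw [Finset.sum_sub_distrib]
      ring
    rw [e]
    have h3 := abs_sub (∑ m ∈ Finset.range Q, ind (k + 1) (2 * i) (m * θ ^ d₀ + x) - Q * (1 / 2) ^ (k + 1))
      (∑ m ∈ Finset.range Q, ind (k + 1) (2 * i + 1) (m * θ ^ d₀ + x) - Q * (1 / 2) ^ (k + 1))
    linarith
  · have hz : ∀ t, haar k i t = 0 := fun t => by
      unfold haar
      rw [ind_zero (by rw [pow_succ]; omega), ind_zero (by rw [pow_succ]; omega), sub_zero]
    simp only [hz, Finset.sum_const_zero, abs_zero]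
    positivity

/-- product with the `θ^d` times faster one: equidistribution of the phases -/
theorem pair_equi {θ : ℝ} {r Q₀ : ℕ} {ε : ℝ} (hE : Equi θ r Q₀ ε) (hε : 0 ≤ ε) {d₀ : ℕ} (h1 : 1 ≤ d₀) (hd : d₀ ≤ r) {β : ℝ} (hβ : 0 < β)
    (k i k' i' : ℕ) (c d a b : ℝ) (hab : (Q₀ : ℝ) + 1 ≤ β * (b - a)) :
    |∫ x in a..b, haar k i (β * x + d) * haar k' i' (β * θ ^ d₀ * x + c)| ≤ 2 * ε * (b - a) + 1 / β := by
  set c' : ℝ := c - θ ^ d₀ * d with hc'
  set F : ℝ → ℝ := fun y => haar k i y * haar k' i' (θ ^ d₀ * y + c') with hF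
  have hFm : Measurable F := (haar_meas k i).mul ((haar_meas k' i').comp ((measurable_const_mul (θ ^ d₀)).add_const c'))
  have hF1 : ∀ y, |F y| ≤ 1 := fun y => by
    rw [hF]
    show |haar k i y * haar k' i' (θ ^ d₀ * y + c')| ≤ 1
    rw [abs_mul]
    exact mul_le_one₀ (haar_abs _ _ _) (abs_nonneg _) (haar_abs _ _ _)
  have hint : ∀ u v, IntervalIntegrable F volume u v := fun u v => ii_bdd hFm hF1 u v
  have e1 : ∫ x in a..b, haar k i (β * x + d) * haar k' i' (β * θ ^ d₀ * x + c) =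
      β⁻¹ * ∫ y in β * a + d..β * b + d, F y := by
    have h0 := intervalIntegral.integral_comp_mul_add (a := a) (b := b) F hβ.ne' d
    rw [smul_eq_mul] at h0
    rw [← h0]
    refine intervalIntegral.integral_congr fun x _ => ?_
    show haar k i (β * x + d) * haar k' i' (β * θ ^ d₀ * x + c) = haar k i (β * x + d) * haar k' i' (θ ^ d₀ * (β * x + d) + c')
    congr 2
    rw [hc']
    ring
  set Y : ℝ := β * a + d with hY
  set Q : ℕ := ⌊β * (b - a)⌋₊ with hQ
  have hQ0 : (0 : ℝ) ≤ Q₀ := Nat.cast_nonneg _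
  have hba : 0 ≤ β * (b - a) := by linarith
  have hQ1 := Nat.floor_le hba
  have hQ2 := Nat.lt_floor_add_one (β * (b - a))
  rw [← hQ] at hQ1 hQ2
  have hQQ : Q₀ ≤ Q := by
    rw [hQ]
    exact Nat.le_floor (by linarith)
  have e2 : ∫ y in Y..Y + Q, F y = ∫ t in (0 : ℝ)..1, ∑ m ∈ Finset.range Q, F (Y + m + t) := by
    have h2 := intervalIntegral.sum_integral_adjacent_intervals (μ := volume) (f := F) (a := fun m : ℕ => Y + m) (n := Q)
      fun m _ => hint _ _
    simp only [Nat.cast_zero, add_zero] at h2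
    rw [← h2, intervalIntegral.integral_finsetSum fun m _ => ?_]
    · refine Finset.sum_congr rfl fun m _ => ?_
      rw [intervalIntegral.integral_comp_add_left F (Y + m)]
      congr 1 <;> push_cast <;> ring
    · refine ii_bdd (hFm.comp (measurable_const_add (Y + m))) (fun x => hF1 _) 0 1
  have h3 : |∫ y in Y..Y + Q, F y| ≤ 2 * ε * Q := by
    rw [e2]
    have h4 := intervalIntegral.norm_integral_le_of_norm_le_const (a := (0 : ℝ)) (b := 1)
      (f := fun t => ∑ m ∈ Finset.range Q, F (Y + m + t)) (C := 2 * ε * Q) fun t _ => ?_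
    · rw [Real.norm_eq_abs] at h4
      simpa using h4
    · have e3 : ∑ m ∈ Finset.range Q, F (Y + m + t) = haar k i (Y + t) * ∑ m ∈ Finset.range Q, haar k' i' (m * θ ^ d₀ + (θ ^ d₀ * (Y + t) + c')) := by
        rw [Finset.mul_sum]
        refine Finset.sum_congr rfl fun m _ => ?_
        show haar k i (Y + m + t) * haar k' i' (θ ^ d₀ * (Y + m + t) + c') = _
        have e4 : haar k i (Y + m + t) = haar k i (Y + t) := by
          have := (haar_per k i).nat_mul m (Y + t)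
          rw [mul_one] at this
          rw [← this]
          congr 1
          ring
        rw [e4]
        congr 2
        ring
      rw [Real.norm_eq_abs, e3, abs_mul]
      calc |haar k i (Y + t)| * |∑ m ∈ Finset.range Q, haar k' i' (m * θ ^ d₀ + (θ ^ d₀ * (Y + t) + c'))| ≤
            1 * (2 * ε * Q) := mul_le_mul (haar_abs _ _ _) (sum_haar hE hε h1 hd k' i' hQQ _) (abs_nonneg _) zero_le_one
        _ = 2 * ε * Q := one_mul _
  have h5 : |∫ y in Y + Q..β * b + d, F y| ≤ 1 := by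
    refine (int_le_len hF1 ?_).trans ?_
    · rw [hY]; linarith
    · rw [hY]; linarith
  rw [e1, ← intervalIntegral.integral_add_adjacent_intervals (hint Y (Y + Q)) (hint (Y + Q) (β * b + d)), abs_mul,
    abs_of_pos (inv_pos.2 hβ)]
  have h6 := abs_add_le (∫ y in Y..Y + Q, F y) (∫ y in Y + Q..β * b + d, F y)
  have h7 : 2 * ε * (Q : ℝ) ≤ 2 * ε * (β * (b - a)) := mul_le_mul_of_nonneg_left hQ1 (by linarith)
  have h8 : β⁻¹ * |(∫ y in Y..Y + Q, F y) + ∫ y in Y + Q..β * b + d, F y| ≤ β⁻¹ * (2 * ε * (β * (b - a)) + 1) :=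
    mul_le_mul_of_nonneg_left (by linarith) (inv_pos.2 hβ).le
  refine h8.trans (le_of_eq ?_)
  field_simp

end Pool.Agent.Helper5.LD
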